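import Mathlib
import Pool.Agent.K1H77.CG.Stm

/-! # Matchings which commute with a permutation -/

set_option autoImplicit false

open Finset

namespace Pool.Agent.K1H37.CG

open Pool.Agent.K1H77.CG

variable {α : Type} [Fintype α] [DecidableEq α]

/-- the cycle of `x` -/
noncomputable def cy (σ : Equiv.Perm α) (x : α) : Finset α := by
  classical exact univ.filter (fun y => σ.SameCycle x y)

theorem mem_cy {σ : Equiv.Perm α} {x y : α} : y ∈ cy σ x ↔ σ.SameCycle x y := by simp [cy]

/-- involutions (as functions) with set of moved points `T` which commute with `σ` -/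
noncomputable def KK (σ : Equiv.Perm α) (T : Finset α) : Finset (α → α) := by
  classical exact univ.filter (fun M => (∀ x, M (M x) = x) ∧ (∀ x, M x = x ↔ x ∉ T) ∧
    ∀ x, M (σ x) = σ (M x))

theorem mem_KK {σ : Equiv.Perm α} {T : Finset α} {M : α → α} :
    M ∈ KK σ T ↔ (∀ x, M (M x) = x) ∧ (∀ x, M x = x ↔ x ∉ T) ∧ ∀ x, M (σ x) = σ (M x) := by
  simp [KK]

/-- points of `T` moved by `σ` -/
def mo (σ : Equiv.Perm α) (T : Finset α) : Finset α := T.filter (fun x => σ x ≠ x)

/-- number of nontrivial cycles in `T` -/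
noncomputable def rr (σ : Equiv.Perm α) (T : Finset α) : ℕ := ((mo σ T).image (cy σ)).card

/-- number of fixed points in `T` -/
def fx (σ : Equiv.Perm α) (T : Finset α) : ℕ := (T.filter (fun x => σ x = x)).card

/-- `T` is a union of cycles -/
def Cl (σ : Equiv.Perm α) (T : Finset α) : Prop := ∀ x ∈ T, ∀ y, σ.SameCycle x y → y ∈ T

theorem cy_eq {σ : Equiv.Perm α} {x y : α} (h : σ.SameCycle x y) : cy σ y = cy σ x := by
  ext z
  rw [mem_cy, mem_cy]
  exact ⟨fun h' => h.trans h', fun h' => h.symm.trans h'⟩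

theorem cl_sdiff {σ : Equiv.Perm α} {T : Finset α} (hT : Cl σ T) (b : α) :
    Cl σ (T \ cy σ b) := by
  intro x hx y hxy
  rw [mem_sdiff, mem_cy] at hx ⊢
  exact ⟨hT x hx.1 y hxy, fun h => hx.2 (h.trans hxy.symm)⟩

theorem mo_sdiff (σ : Equiv.Perm α) (T : Finset α) (b : α) :
    mo σ (T \ cy σ b) = mo σ T \ cy σ b := by
  ext x
  simp only [mo, mem_filter, mem_sdiff]
  tauto

theorem rr_sdiff {σ : Equiv.Perm α} {T : Finset α} {b : α} (hb : b ∈ mo σ T) :
    rr σ (T \ cy σ b) + 1 = rr σ T := by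
  have h : (mo σ (T \ cy σ b)).image (cy σ) = ((mo σ T).image (cy σ)).erase (cy σ b) := by
    ext C
    rw [mo_sdiff]
    simp only [mem_image, mem_erase, mem_sdiff]
    constructor
    · rintro ⟨x, ⟨hx1, hx2⟩, rfl⟩
      refine ⟨fun h => hx2 ?_, x, hx1, rfl⟩
      rw [← h, mem_cy]
    · rintro ⟨h1, x, hx, rfl⟩
      refine ⟨x, ⟨hx, fun h => h1 ?_⟩, rfl⟩
      exact cy_eq (mem_cy.1 h)
  unfold rr
  rw [h]
  exact card_erase_add_one (mem_image_of_mem _ hb)

theorem fx_sdiff {σ : Equiv.Perm α} {T : Finset α} {b : α} (hb : b ∈ mo σ T) :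
    fx σ (T \ cy σ b) = fx σ T := by
  unfold fx
  congr 1
  ext x
  simp only [mem_filter, mem_sdiff, mem_cy]
  constructor
  · rintro ⟨⟨h1, _⟩, h3⟩
    exact ⟨h1, h3⟩
  · rintro ⟨h1, h3⟩
    refine ⟨⟨h1, fun h => ?_⟩, h3⟩
    have := (mem_filter.1 hb).2
    exact this (h.apply_eq_self_iff.2 h3)

/-- the base case: involutions with a given set of moved points -/
theorem card_base (h : S_CARD) (σ : Equiv.Perm α) (T : Finset α) :
    (KK σ T).card ≤ fm T.card := by
  classical
  have hc := h {x // x ∈ T}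
  rw [Fintype.card_coe] at hc
  rw [← hc]
  have inT : ∀ M ∈ KK σ T, ∀ x : α, x ∈ T → M x ∈ T := by
    intro M hM x hx
    obtain ⟨h1, h2, _⟩ := mem_KK.1 hM
    by_contra hc
    have := (h2 (M x)).2 hc
    rw [h1] at this
    exact (h2 x).1 this.symm hx
  have hinv : ∀ M (hM : M ∈ KK σ T), Function.Involutive
      (fun x : {x // x ∈ T} => (⟨M x.1, inT M hM x.1 x.2⟩ : {x // x ∈ T})) := by
    intro M hM x
    apply Subtype.ext
    exact (mem_KK.1 hM).1 x.1
  refine card_le_card_of_injOn (fun M => if hM : M ∈ KK σ T then (hinv M hM).toPerm else 1)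
    (fun M hM => ?_) (fun M hM M' hM' hMM => ?_)
  · have hM : M ∈ KK σ T := hM
    simp only [dif_pos hM]
    rw [mem_coe, mem_Mat]
    refine ⟨fun x => ?_, fun x hx => ?_⟩
    · exact hinv M hM x
    · have := congrArg Subtype.val hx
      exact ((mem_KK.1 hM).2.1 x.1).1 this x.2
  · have hM : M ∈ KK σ T := hM
    have hM' : M' ∈ KK σ T := hM'
    simp only [dif_pos hM, dif_pos hM'] at hMM
    funext x
    by_cases hx : x ∈ T
    · have := congrArg (fun P : Equiv.Perm {x // x ∈ T} => (P ⟨x, hx⟩ : {x // x ∈ T}).1) hMM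
      exact this
    · rw [((mem_KK.1 hM).2.1 x).2 hx, ((mem_KK.1 hM').2.1 x).2 hx]

/-- elements of `KK` commute with the powers of `σ` -/
theorem comm_zpow {σ : Equiv.Perm α} {T : Finset α} {M : α → α} (hM : M ∈ KK σ T) (i : ℤ) (x : α) :
    M ((σ ^ i) x) = (σ ^ i) (M x) := by
  obtain ⟨h1, _, h3⟩ := mem_KK.1 hM
  have hi : Function.Involutive M := h1
  have hc : Commute hi.toPerm σ := by
    ext y
    exact h3 y
  have := congrArg (fun P : Equiv.Perm α => P x) (hc.zpow_right i).eq
  exact this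

theorem map_T {σ : Equiv.Perm α} {T : Finset α} {M : α → α} (hM : M ∈ KK σ T) {x : α} (hx : x ∈ T) :
    M x ∈ T := by
  obtain ⟨h1, h2, _⟩ := mem_KK.1 hM
  by_contra hc
  have := (h2 (M x)).2 hc
  rw [h1] at this
  exact (h2 x).1 this.symm hx

/-- restriction to `T'` -/
theorem res_mem {σ : Equiv.Perm α} {T T' : Finset α} {M : α → α} (hM : M ∈ KK σ T) (hT' : Cl σ T')
    (hsub : T' ⊆ T) (hmap : ∀ x ∈ T', M x ∈ T') :
    (fun x => if x ∈ T' then M x else x) ∈ KK σ T' := by
  obtain ⟨h1, h2, h3⟩ := mem_KK.1 hM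
  rw [mem_KK]
  refine ⟨fun x => ?_, fun x => ?_, fun x => ?_⟩
  · by_cases hx : x ∈ T'
    · simp only [hx, if_true, hmap x hx, h1]
    · simp only [hx, if_false]
  · by_cases hx : x ∈ T'
    · simp only [hx, if_true, not_true_eq_false, iff_false]
      intro h
      exact (h2 x).1 h (hsub hx)
    · simp [hx]
  · have e : σ x ∈ T' ↔ x ∈ T' :=
      ⟨fun h => hT' _ h _ (Equiv.Perm.sameCycle_apply_left.2 (Equiv.Perm.SameCycle.refl _ _)),
        fun h => hT' _ h _ (Equiv.Perm.sameCycle_apply_right.2 (Equiv.Perm.SameCycle.refl _ _))⟩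
    by_cases hx : x ∈ T'
    · simp only [hx, e.2 hx, if_true, h3]
    · simp only [hx, if_false, (show σ x ∉ T' from fun h => hx (e.1 h))]

omit [Fintype α] [DecidableEq α] in
theorem zpow_uniq {σ : Equiv.Perm α} {b : α} {i j : ℤ} (hi : (σ ^ i) b ≠ b) (hj : (σ ^ j) b ≠ b)
    (hi2 : (σ ^ i) ((σ ^ i) b) = b) (hj2 : (σ ^ j) ((σ ^ j) b) = b) : (σ ^ i) b = (σ ^ j) b := by
  have key : ∀ k : ℤ, (σ ^ k) b = b ↔ (Function.minimalPeriod (fun x => σ • x) b : ℤ) ∣ k := by
    intro k
    rw [← MulAction.zpow_smul_eq_iff_minimalPeriod_dvd]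
    rfl
  set l : ℤ := (Function.minimalPeriod (fun x => σ • x) b : ℤ) with hl
  have hi' : (σ ^ (i + i)) b = b := by rw [zpow_add]; exact hi2
  have hj' : (σ ^ (j + j)) b = b := by rw [zpow_add]; exact hj2
  rw [key] at hi' hj'
  rw [Ne, key] at hi hj
  obtain ⟨u, hu⟩ := hi'
  obtain ⟨v, hv⟩ := hj'
  have hu2 : ∃ u', u = 2 * u' + 1 := by
    rcases Int.even_or_odd' u with ⟨u', h | h⟩
    · exact absurd ⟨u', by rw [h] at hu; linarith⟩ hi
    · exact ⟨u', h⟩
  have hv2 : ∃ v', v = 2 * v' + 1 := by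
    rcases Int.even_or_odd' v with ⟨v', h | h⟩
    · exact absurd ⟨v', by rw [h] at hv; linarith⟩ hj
    · exact ⟨v', h⟩
  obtain ⟨u', rfl⟩ := hu2
  obtain ⟨v', rfl⟩ := hv2
  have hd : l ∣ (i - j) := ⟨u' - v', by linarith⟩
  have h0 := (key (i - j)).2 hd
  have : i = j + (i - j) := by ring
  rw [this, zpow_add, Equiv.Perm.mul_apply, h0]

/-- the matchings which map the cycle of `b` to itself -/
theorem card_A {σ : Equiv.Perm α} {T : Finset α} (hT : Cl σ T) {b : α} (hb : b ∈ mo σ T) :
    ((KK σ T).filter (fun M => M b ∈ cy σ b)).card ≤ (KK σ (T \ cy σ b)).card := by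
  classical
  have hbT : b ∈ T := (mem_filter.1 hb).1
  refine card_le_card_of_injOn (fun M x => if x ∈ T \ cy σ b then M x else x)
    (fun M hM => ?_) (fun M hM M' hM' hMM => ?_)
  · have hM := mem_filter.1 (mem_coe.1 hM)
    refine mem_coe.2 (res_mem hM.1 (cl_sdiff hT b) sdiff_subset fun x hx => ?_)
    rw [mem_sdiff] at hx ⊢
    refine ⟨map_T hM.1 hx.1, fun h => hx.2 ?_⟩
    obtain ⟨i, hi⟩ := mem_cy.1 h
    have h1 : M (M x) = x := (mem_KK.1 hM.1).1 x
    rw [← hi, comm_zpow hM.1] at h1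
    rw [mem_cy]
    exact (mem_cy.1 hM.2).trans ⟨i, h1⟩
  · have hM := mem_filter.1 (mem_coe.1 hM)
    have hM' := mem_filter.1 (mem_coe.1 hM')
    have hb1 : M b = M' b := by
      obtain ⟨i, hi⟩ := mem_cy.1 hM.2
      obtain ⟨j, hj⟩ := mem_cy.1 hM'.2
      rw [← hi, ← hj]
      have a1 : M (M b) = b := (mem_KK.1 hM.1).1 b
      have a2 : M' (M' b) = b := (mem_KK.1 hM'.1).1 b
      have b1 : M b ≠ b := fun h => ((mem_KK.1 hM.1).2.1 b).1 h hbT
      have b2 : M' b ≠ b := fun h => ((mem_KK.1 hM'.1).2.1 b).1 h hbT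
      have c1 : (σ ^ i) ((σ ^ i) b) = b := by
        rw [← hi, comm_zpow hM.1, ← hi] at a1
        exact a1
      have c2 : (σ ^ j) ((σ ^ j) b) = b := by
        rw [← hj, comm_zpow hM'.1, ← hj] at a2
        exact a2
      rw [← hi] at b1
      rw [← hj] at b2
      exact zpow_uniq b1 b2 c1 c2
    funext x
    by_cases hx : x ∈ T
    · by_cases hxb : x ∈ cy σ b
      · obtain ⟨i, rfl⟩ := mem_cy.1 hxb
        rw [comm_zpow hM.1, comm_zpow hM'.1, hb1]
      · have := congrFun hMM x
        simpa only [mem_sdiff, hx, hxb, not_false_eq_true, and_self, if_true] using this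
    · rw [((mem_KK.1 hM.1).2.1 x).2 hx, ((mem_KK.1 hM'.1).2.1 x).2 hx]

/-- the matchings which map `b` to `c` -/
theorem card_B {σ : Equiv.Perm α} {T : Finset α} (hT : Cl σ T) (b c : α) :
    ((KK σ T).filter (fun M => M b = c)).card ≤ (KK σ ((T \ cy σ b) \ cy σ c)).card := by
  classical
  refine card_le_card_of_injOn (fun M x => if x ∈ (T \ cy σ b) \ cy σ c then M x else x)
    (fun M hM => ?_) (fun M hM M' hM' hMM => ?_)
  · have hM := mem_filter.1 (mem_coe.1 hM)
    have h2 := hM.2
    refine mem_coe.2 (res_mem hM.1 (cl_sdiff (cl_sdiff hT b) c)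
      (sdiff_subset.trans sdiff_subset) fun x hx => ?_)
    rw [mem_sdiff, mem_sdiff] at hx ⊢
    have h1 : M (M x) = x := (mem_KK.1 hM.1).1 x
    have h3 : M c = b := by rw [← h2]; exact (mem_KK.1 hM.1).1 b
    refine ⟨⟨map_T hM.1 hx.1.1, fun h => hx.2 ?_⟩, fun h => hx.1.2 ?_⟩
    · obtain ⟨i, hi⟩ := mem_cy.1 h
      rw [← hi, comm_zpow hM.1, h2] at h1
      exact mem_cy.2 ⟨i, h1⟩
    · obtain ⟨i, hi⟩ := mem_cy.1 h
      rw [← hi, comm_zpow hM.1, h3] at h1
      exact mem_cy.2 ⟨i, h1⟩
  · have hM := mem_filter.1 (mem_coe.1 hM)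
    have hM' := mem_filter.1 (mem_coe.1 hM')
    have e1 := hM.2
    have e2 := hM'.2
    have f1 : M c = b := by rw [← e1]; exact (mem_KK.1 hM.1).1 b
    have f2 : M' c = b := by rw [← e2]; exact (mem_KK.1 hM'.1).1 b
    funext x
    by_cases hx : x ∈ T
    · by_cases hxb : x ∈ cy σ b
      · obtain ⟨i, rfl⟩ := mem_cy.1 hxb
        rw [comm_zpow hM.1, comm_zpow hM'.1, e1, e2]
      · by_cases hxc : x ∈ cy σ c
        · obtain ⟨i, rfl⟩ := mem_cy.1 hxc
          rw [comm_zpow hM.1, comm_zpow hM'.1, f1, f2]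
        · have := congrFun hMM x
          simpa only [mem_sdiff, hx, hxb, hxc, not_false_eq_true, and_self, if_true] using this
    · rw [((mem_KK.1 hM.1).2.1 x).2 hx, ((mem_KK.1 hM'.1).2.1 x).2 hx]

theorem main (h : S_CARD) (σ : Equiv.Perm α) (n : ℕ) : ∀ T : Finset α, T.card ≤ n → Cl σ T →
    ∀ b : ℝ, ((mo σ T).card : ℝ) ≤ b →
      ((KK σ T).card : ℝ) ≤ fm (fx σ T) * (1 + Real.sqrt b) ^ rr σ T := by
  classical
  induction n with
  | zero =>
    intro T hn hT b hb
    have hT0 : T = ∅ := by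
      rw [← Finset.card_eq_zero]
      omega
    subst hT0
    have := card_base h σ (∅ : Finset α)
    simp only [rr, mo, fx, filter_empty, image_empty, card_empty, pow_zero, mul_one]
    exact_mod_cast this
  | succ n ih =>
    intro T hn hT b hb
    by_cases hm : mo σ T = ∅
    · have h1 := card_base h σ T
      have h2 : fx σ T = T.card := by
        unfold fx
        congr 1
        rw [filter_eq_self]
        intro x hx
        by_contra hc
        have : x ∈ mo σ T := mem_filter.2 ⟨hx, hc⟩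
        rw [hm] at this
        exact absurd this (notMem_empty _)
      have h3 : rr σ T = 0 := by
        unfold rr
        rw [hm]
        rfl
      rw [h2, h3, pow_zero, mul_one]
      exact_mod_cast h1
    · obtain ⟨b0, hb0⟩ := Finset.nonempty_iff_ne_empty.2 hm
      have hb0T : b0 ∈ T := (mem_filter.1 hb0).1
      have hb0m : σ b0 ≠ b0 := (mem_filter.1 hb0).2
      set T1 := T \ cy σ b0 with hT1
      have hcl1 : Cl σ T1 := cl_sdiff hT b0
      have hself : ∀ x : α, x ∈ cy σ x := fun x => mem_cy.2 (Equiv.Perm.SameCycle.refl _ _)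
      have hcard : ∀ (S : Finset α) (x : α), x ∈ S → (S \ cy σ x).card < S.card := by
        intro S x hx
        apply card_lt_card
        refine ⟨sdiff_subset, fun hs => ?_⟩
        have := hs hx
        rw [mem_sdiff] at this
        exact this.2 (hself x)
      have hT1n : T1.card ≤ n := by
        have : T1.card < T.card := hcard T b0 hb0T
        omega
      have hrr1 : rr σ T1 + 1 = rr σ T := rr_sdiff hb0
      have hfx1 : fx σ T1 = fx σ T := fx_sdiff hb0
      have hmo1 : mo σ T1 ⊆ mo σ T := by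
        rw [hT1, mo_sdiff]
        exact sdiff_subset
      have hb1 : ((mo σ T1).card : ℝ) ≤ b := le_trans (by exact_mod_cast card_le_card hmo1) hb
      set X : ℝ := 1 + Real.sqrt b with hX
      have hb00 : (0 : ℝ) ≤ b := le_trans (Nat.cast_nonneg _) hb
      have hX1 : 1 ≤ X := by
        have := Real.sqrt_nonneg b
        linarith
      have hX0 : 0 ≤ X := by linarith
      have hA : (((KK σ T).filter (fun M => M b0 ∈ cy σ b0)).card : ℝ) ≤
          fm (fx σ T) * X ^ rr σ T1 := by
        refine le_trans (Nat.cast_le.2 (card_A hT hb0)) ?_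
        have := ih T1 hT1n hcl1 b hb1
        rwa [hfx1] at this
      have hBsum : ((KK σ T).filter (fun M => ¬ M b0 ∈ cy σ b0)).card ≤
          ∑ c ∈ mo σ T1, (KK σ (T1 \ cy σ c)).card := by
        have hmaps : ∀ M ∈ (KK σ T).filter (fun M => ¬ M b0 ∈ cy σ b0), M b0 ∈ mo σ T1 := by
          intro M hM
          have hM := mem_filter.1 hM
          rw [hT1, mo_sdiff, mem_sdiff]
          refine ⟨mem_filter.2 ⟨map_T hM.1 hb0T, fun hc => hb0m ?_⟩, hM.2⟩
          rw [← (mem_KK.1 hM.1).2.2] at hc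
          have := congrArg M hc
          rwa [(mem_KK.1 hM.1).1, (mem_KK.1 hM.1).1] at this
        rw [card_eq_sum_card_fiberwise (f := fun M : α → α => M b0) (t := mo σ T1) hmaps]
        refine sum_le_sum fun c hc => ?_
        refine le_trans (card_le_card ?_) (card_B hT b0 c)
        intro M hM
        rw [mem_filter, mem_filter] at hM
        exact mem_filter.2 ⟨hM.1.1, hM.2⟩
      have hB : (((KK σ T).filter (fun M => ¬ M b0 ∈ cy σ b0)).card : ℝ) ≤
          ∑ c ∈ mo σ T1, (fm (fx σ T) * X ^ (rr σ T - 2) : ℝ) := by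
        refine le_trans (Nat.cast_le.2 hBsum) ?_
        rw [Nat.cast_sum]
        refine sum_le_sum fun c hc => ?_
        have hcT : c ∈ T1 := (mem_filter.1 hc).1
        have h1 := hcard T1 c hcT
        have h2 := rr_sdiff hc
        have h3 := fx_sdiff hc
        have h4 : mo σ (T1 \ cy σ c) ⊆ mo σ T1 := by
          rw [mo_sdiff]
          exact sdiff_subset
        have h5 := ih (T1 \ cy σ c) (by omega) (cl_sdiff hcl1 c) b
          (le_trans (by exact_mod_cast card_le_card h4) hb1)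
        rw [h3, hfx1] at h5
        have h6 : rr σ (T1 \ cy σ c) = rr σ T - 2 := by omega
        rw [h6] at h5
        exact h5
      have hsplit : (KK σ T).card = ((KK σ T).filter (fun M => M b0 ∈ cy σ b0)).card +
          ((KK σ T).filter (fun M => ¬ M b0 ∈ cy σ b0)).card :=
        (card_filter_add_card_filter_not _).symm
      rw [sum_const, nsmul_eq_mul] at hB
      have hF : (0 : ℝ) ≤ fm (fx σ T) := Nat.cast_nonneg _
      rw [hsplit, Nat.cast_add]
      refine le_trans (add_le_add hA hB) ?_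
      rcases Nat.lt_or_ge (rr σ T) 2 with hr | hr
      · have hr1 : rr σ T = 1 := by omega
        have hr0 : rr σ T1 = 0 := by omega
        have hmo0 : mo σ T1 = ∅ := by
          have : (mo σ T1).image (cy σ) = ∅ := by
            rw [← Finset.card_eq_zero]
            exact hr0
          exact image_eq_empty.1 this
        rw [hr1, hr0, hmo0]
        simp only [pow_zero, mul_one, card_empty, Nat.cast_zero, zero_mul, add_zero, pow_one]
        exact le_mul_of_one_le_right hF hX1
      · obtain ⟨q, hq⟩ : ∃ q, rr σ T = q + 2 := ⟨rr σ T - 2, by omega⟩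
        have hq1 : rr σ T1 = q + 1 := by omega
        rw [hq1, hq, Nat.add_sub_cancel]
        have hXq : 0 ≤ X ^ q := pow_nonneg hX0 q
        have hsq : Real.sqrt b * Real.sqrt b = b := Real.mul_self_sqrt hb00
        have hkey : X + ((mo σ T1).card : ℝ) ≤ X ^ 2 := by
          have hs0 := Real.sqrt_nonneg b
          rw [hX]
          nlinarith
        calc (fm (fx σ T) : ℝ) * X ^ (q + 1) +
              ((mo σ T1).card : ℝ) * ((fm (fx σ T) : ℝ) * X ^ q)
            = ((fm (fx σ T) : ℝ) * X ^ q) * (X + ((mo σ T1).card : ℝ)) := by ring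
          _ ≤ ((fm (fx σ T) : ℝ) * X ^ q) * X ^ 2 :=
              mul_le_mul_of_nonneg_left hkey (mul_nonneg hF hXq)
          _ = (fm (fx σ T) : ℝ) * X ^ (q + 2) := by ring

theorem rr_univ (σ : Equiv.Perm α) : rr σ univ ≤ σ.cycleType.card := by
  classical
  have h1 : (mo σ univ).image (cy σ) ⊆ σ.cycleFactorsFinset.image (fun c => c.support) := by
    intro C hC
    obtain ⟨x, hx, rfl⟩ := mem_image.1 hC
    have hx : σ x ≠ x := (mem_filter.1 hx).2
    refine mem_image.2 ⟨σ.cycleOf x, ?_, ?_⟩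
    · rw [Equiv.Perm.cycleOf_mem_cycleFactorsFinset_iff, Equiv.Perm.mem_support]
      exact hx
    · ext y
      rw [mem_cy, Equiv.Perm.mem_support_cycleOf_iff' hx]
  unfold rr
  refine le_trans (card_le_card h1) (le_trans card_image_le ?_)
  rw [Equiv.Perm.cycleType_def, Multiset.card_map]
  exact le_rfl

/-- **Piece FIX**. -/
theorem t_FIX (h : S_CARD) : S_FIX := by
  intro α _ _ σ
  classical
  have e1 : fixc σ ≤ (KK σ univ).card := by
    unfold fixc
    refine card_le_card_of_injOn (fun M : Equiv.Perm α => (M : α → α)) (fun M hM => ?_)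
      (fun M _ M' _ hMM => DFunLike.coe_injective hMM)
    have hM := mem_filter.1 (mem_coe.1 hM)
    rw [mem_Mat] at hM
    refine mem_coe.2 (mem_KK.2 ⟨hM.1.1, fun x => ?_, fun x => (hM.2 x).symm⟩)
    simpa using hM.1.2 x
  have e2 := main h σ (univ : Finset α).card univ le_rfl (fun _ _ _ _ => mem_univ _)
    (σ.support.card : ℝ) (by
      apply le_of_eq
      congr 2)
  have e3 : fx σ univ = Fintype.card α - σ.support.card := by
    have h1 : (univ.filter (fun x => σ x = x)).card + (univ.filter (fun x => ¬ σ x = x)).card =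
        (univ : Finset α).card := card_filter_add_card_filter_not _
    have h2 : σ.support = univ.filter (fun x => ¬ σ x = x) := rfl
    unfold fx
    rw [h2, ← Finset.card_univ]
    omega
  rw [e3] at e2
  refine le_trans (by exact_mod_cast e1) (le_trans e2 ?_)
  refine mul_le_mul_of_nonneg_left (pow_le_pow_right₀ ?_ (rr_univ σ)) (Nat.cast_nonneg _)
  have := Real.sqrt_nonneg (σ.support.card : ℝ)
  linarith

end Pool.Agent.K1H37.CG
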